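import Mathlib

set_option autoImplicit false

namespace Pool.Agent.Results.MP_6784b8_co.LinearGap

open SimpleGraph Finset

/-- The suspension of `H`: one new vertex `none`, joined to every vertex of `H`. -/
def suspension {V : Type} (H : SimpleGraph V) : SimpleGraph (Option V) where
  Adj a b := match a, b with
    | none, none => False
    | none, some _ => True
    | some _, none => True
    | some x, some y => H.Adj x y
  symm := ⟨by
    rintro (_ | x) (_ | y) h
    · exact h
    · trivial
    · trivial
    · exact SimpleGraph.Adj.symm (G := H) h⟩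
  loopless := ⟨by
    rintro (_ | x) h
    · exact h
    · exact H.loopless.irrefl x h⟩

/-- `f(n,k) = max { n₀ n₁ + ⌊(k-1) n₀ / 2⌋ : n₀ + n₁ = n }`. -/
def f (n k : ℕ) : ℕ := (range (n + 1)).sup fun n₀ => n₀ * (n - n₀) + (k - 1) * n₀ / 2

/-! ### The host graphs -/

/-- Two sides (indexed by `Bool`) with `n β` vertices, completely joined; the side `β` is divided
into consecutive blocks of `s β` vertices, which are cliques. -/
def host (s n : Bool → ℕ) : SimpleGraph (Σ β : Bool, Fin (n β)) where
  Adj x y := x ≠ y ∧ (x.1 = y.1 → x.2.1 / s x.1 = y.2.1 / s y.1)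
  symm := ⟨fun _ _ h => ⟨h.1.symm, fun e => (h.2 e.symm).symm⟩⟩
  loopless := ⟨fun _ h => h.1 rfl⟩

/-- `T` contains `m` pairwise disjoint connected subgraphs with at least `q` vertices each. -/
def ManyConnected {V : Type} (T : SimpleGraph V) (m q : ℕ) : Prop :=
  ∃ S : Fin m → Finset V, (∀ i j, i ≠ j → Disjoint (S i) (S j)) ∧
    ∀ i, (T.induce (S i : Set V)).Connected ∧ q ≤ (S i).card

theorem sig_ext {n : Bool → ℕ} {x y : Σ β : Bool, Fin (n β)} (h1 : x.1 = y.1)
    (h2 : x.2.1 = y.2.1) : x = y := by
  obtain ⟨a, x⟩ := x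
  obtain ⟨b, y⟩ := y
  dsimp only at h1
  subst h1
  congr 1
  exact Fin.ext h2

theorem bool_aux {a b : Bool} (h : a ≠ !b) : a = b := by
  cases a <;> cases b <;> simp_all

theorem adj_block {s n : Bool → ℕ} {x y : Σ β : Bool, Fin (n β)} (h : (host s n).Adj x y)
    {β : Bool} (hx : x.1 = β) (hy : y.1 = β) : x.2.1 / s β = y.2.1 / s β := by
  have h1 := h.2 (hx.trans hy.symm)
  obtain ⟨a, x⟩ := x
  obtain ⟨b, y⟩ := y
  dsimp only at hx hy
  subst hx
  subst hy
  exact h1

theorem host_free {V : Type} (T : SimpleGraph V) (s n : Bool → ℕ) (hs : ∀ β, 1 ≤ s β)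
    (hT : ∀ β, ManyConnected T (s β) (s (!β) + 1)) : (suspension T).Free (host s n) := by
  classical
  rintro ⟨φ⟩
  have hinj := φ.injective
  have hadj : ∀ x y, (suspension T).Adj x y → (host s n).Adj (φ x) (φ y) :=
    fun x y h => φ.toHom.map_adj h
  obtain ⟨β, hβ⟩ : ∃ β, (φ none).1 = β := ⟨_, rfl⟩
  obtain ⟨S, hdis, hS⟩ := hT β
  -- one of the sets avoids the side of the apex
  have key : ∃ i, ∀ u ∈ S i, (φ (some u)).1 = !β := by
    by_contra hcon
    push Not at hcon
    choose u hu hside using hcon
    have hside' : ∀ i, (φ (some (u i))).1 = β := fun i => bool_aux (hside i)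
    have hblock : ∀ i, (φ (some (u i))).2.1 / s β = (φ none).2.1 / s β := by
      intro i
      exact (adj_block (hadj none (some (u i)) trivial) hβ (hside' i)).symm
    have hsub : insert (φ none).2.1 (univ.image fun i => (φ (some (u i))).2.1) ⊆
        Finset.Ico ((φ none).2.1 / s β * s β) ((φ none).2.1 / s β * s β + s β) := by
      intro x hx
      rw [Finset.mem_insert, Finset.mem_image] at hx
      have hx' : x / s β = (φ none).2.1 / s β := by
        rcases hx with rfl | ⟨i, -, rfl⟩
        · rfl
        · exact hblock i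
      rw [Finset.mem_Ico, ← hx']
      exact ⟨Nat.div_mul_le_self _ _, Nat.lt_div_mul_add (hs β)⟩
    have hcard := Finset.card_le_card hsub
    rw [Finset.card_insert_of_notMem, Finset.card_image_of_injective, Nat.card_Ico, card_univ,
      Fintype.card_fin] at hcard
    · omega
    · intro i j hij
      by_contra hne
      have h1 : φ (some (u i)) = φ (some (u j)) := sig_ext ((hside' i).trans (hside' j).symm) hij
      have h2 := hinj h1
      rw [Option.some.injEq] at h2
      exact Finset.disjoint_left.1 (hdis i j hne) (hu i) (h2 ▸ hu j)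
    · rw [Finset.mem_image]
      rintro ⟨i, -, hi⟩
      have h1 : φ (some (u i)) = φ none := sig_ext ((hside' i).trans hβ.symm) hi
      exact absurd (hinj h1) (by simp)
  obtain ⟨i, hi⟩ := key
  obtain ⟨hconn, hcard⟩ := hS i
  -- the block is constant on `S i`
  have hconst : ∀ (a b : (S i : Set V)) (_ : (T.induce (S i : Set V)).Walk a b),
      (φ (some a.1)).2.1 / s (!β) = (φ (some b.1)).2.1 / s (!β) := by
    intro a b p
    induction p with
    | nil => rfl
    | @cons a c b hac p ih =>
      refine Eq.trans ?_ ih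
      have h1 : T.Adj a.1 c.1 := hac
      exact adj_block (hadj (some a.1) (some c.1) h1) (hi _ a.2) (hi _ c.2)
  obtain ⟨a⟩ := hconn.nonempty
  have hall : ∀ b ∈ S i, (φ (some b)).2.1 / s (!β) = (φ (some a.1)).2.1 / s (!β) := by
    intro b hb
    obtain ⟨p⟩ := hconn.preconnected a ⟨b, hb⟩
    exact (hconst _ _ p).symm
  have hsub : (S i).image (fun u => (φ (some u)).2.1) ⊆
      Finset.Ico ((φ (some a.1)).2.1 / s (!β) * s (!β))
        ((φ (some a.1)).2.1 / s (!β) * s (!β) + s (!β)) := by
    intro x hx
    obtain ⟨u, hu, rfl⟩ := Finset.mem_image.1 hx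
    rw [Finset.mem_Ico, ← hall u hu]
    exact ⟨Nat.div_mul_le_self _ _, Nat.lt_div_mul_add (hs _)⟩
  have h3 := Finset.card_le_card hsub
  rw [Finset.card_image_of_injOn, Nat.card_Ico] at h3
  · omega
  · intro u hu v hv huv
    have h1 : φ (some u) = φ (some v) := sig_ext ((hi u hu).trans (hi v hv).symm) huv
    have h2 := hinj h1
    rwa [Option.some.injEq] at h2

open Classical in
theorem host_degree (s n : Bool → ℕ) (hs : ∀ β, 1 ≤ s β) (x : Σ β : Bool, Fin (n β)) :
    n (!x.1) + (if x.2.1 / s x.1 < n x.1 / s x.1 then s x.1 - 1 else 0) ≤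
      (host s n).degree x := by
  obtain ⟨β, z⟩ := x
  rw [← card_neighborFinset_eq_degree]
  have hne : (!β) ≠ β := Bool.not_ne_self β
  set A : Finset (Σ β : Bool, Fin (n β)) := univ.image fun y : Fin (n (!β)) => ⟨!β, y⟩ with hA
  have hAcard : A.card = n (!β) := by
    rw [hA, card_image_of_injective, card_univ, Fintype.card_fin]
    intro y y' h
    simpa using h
  have hAsub : A ⊆ (host s n).neighborFinset ⟨β, z⟩ := by
    intro y hy
    obtain ⟨y, -, rfl⟩ := Finset.mem_image.1 hy
    rw [mem_neighborFinset]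
    refine ⟨fun h => ?_, fun h => ?_⟩
    · exact hne (congrArg Sigma.fst h).symm
    · exact absurd h.symm hne
  split_ifs with h
  · dsimp only at h ⊢
    have hle : z.1 / s β * s β + s β ≤ n β := by
      have h1 : (z.1 / s β + 1) * s β ≤ n β / s β * s β := Nat.mul_le_mul_right _ h
      have h2 := Nat.div_mul_le_self (n β) (s β)
      nlinarith
    set B : Finset (Σ β : Bool, Fin (n β)) :=
      univ.image fun j : Fin (s β) => ⟨β, ⟨z.1 / s β * s β + j.1, by have := j.2; omega⟩⟩ with hB
    have hBcard : B.card = s β := by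
      rw [hB, card_image_of_injective, card_univ, Fintype.card_fin]
      intro j j' h
      simp only [Sigma.mk.injEq, heq_eq_eq, Fin.mk.injEq, true_and] at h
      exact Fin.ext (by omega)
    have hsub : A ∪ B ⊆ insert ⟨β, z⟩ ((host s n).neighborFinset ⟨β, z⟩) := by
      refine Finset.union_subset (hAsub.trans (Finset.subset_insert _ _)) ?_
      intro y hy
      obtain ⟨j, -, rfl⟩ := Finset.mem_image.1 hy
      rw [Finset.mem_insert, mem_neighborFinset]
      by_cases he : (⟨β, ⟨z.1 / s β * s β + j.1, by have := j.2; omega⟩⟩ :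
          Σ β : Bool, Fin (n β)) = ⟨β, z⟩
      · exact Or.inl he
      · refine Or.inr ⟨fun h => he h.symm, fun _ => ?_⟩
        dsimp only
        rw [mul_comm, Nat.mul_add_div (hs β), Nat.div_eq_of_lt j.2, add_zero]
    have hdisj : Disjoint A B := by
      rw [Finset.disjoint_left]
      intro y hy hy'
      obtain ⟨y1, -, rfl⟩ := Finset.mem_image.1 hy
      obtain ⟨y2, -, h⟩ := Finset.mem_image.1 hy'
      exact hne (congrArg Sigma.fst h).symm
    have hc := Finset.card_le_card hsub
    rw [Finset.card_union_of_disjoint hdisj, hAcard, hBcard] at hc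
    have hc2 := Finset.card_insert_le (⟨β, z⟩ : Σ β : Bool, Fin (n β))
      ((host s n).neighborFinset ⟨β, z⟩)
    have := hs β
    omega
  · dsimp only
    rw [add_zero, ← hAcard]
    exact Finset.card_le_card hAsub

theorem count_full (n s : ℕ) : s * (n / s) ≤ #{z : Fin n | z.1 / s < n / s} := by
  have hle : s * (n / s) ≤ n := Nat.mul_div_le n s
  have : (univ.image (Fin.castLE hle)) ⊆ ({z : Fin n | z.1 / s < n / s} : Finset (Fin n)) := by
    intro z hz
    obtain ⟨y, -, rfl⟩ := Finset.mem_image.1 hz
    rw [Finset.mem_filter]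
    exact ⟨mem_univ _, Nat.div_lt_of_lt_mul y.2⟩
  have h := Finset.card_le_card this
  rwa [card_image_of_injective _ (Fin.castLE_injective hle), card_univ, Fintype.card_fin] at h

open Classical in
theorem host_edges (s n : Bool → ℕ) (hs : ∀ β, 1 ≤ s β) :
    ∑ β, (n β * n (!β) + (s β - 1) * (s β * (n β / s β))) ≤ 2 * #(host s n).edgeFinset := by
  rw [← (host s n).sum_degrees_eq_twice_card_edges, Fintype.sum_sigma]
  refine Finset.sum_le_sum fun β _ => ?_
  calc n β * n (!β) + (s β - 1) * (s β * (n β / s β))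
      ≤ n β * n (!β) + (s β - 1) * #{z : Fin (n β) | z.1 / s β < n β / s β} := by
        gcongr
        exact count_full _ _
    _ = ∑ z : Fin (n β), (n (!β) + if z.1 / s β < n β / s β then s β - 1 else 0) := by
        rw [sum_add_distrib, sum_const, card_univ, Fintype.card_fin, smul_eq_mul,
          ← Finset.sum_filter, sum_const, smul_eq_mul, mul_comm (s β - 1)]
    _ ≤ ∑ z : Fin (n β), (host s n).degree ⟨β, z⟩ :=
        Finset.sum_le_sum fun z _ => host_degree s n hs ⟨β, z⟩

/-- **General lower bound.** -/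
theorem lower {V : Type} (T : SimpleGraph V) (a b : ℕ) (ha : 1 ≤ a) (hb : 1 ≤ b)
    (hab : ManyConnected T a (b + 1)) (hba : ManyConnected T b (a + 1)) (n : ℕ) :
    n ^ 2 + (a + b - 2) * n ≤ 4 * extremalNumber n (suspension T) + 3 * (a ^ 2 + b ^ 2) := by
  classical
  let s : Bool → ℕ := fun β => cond β a b
  let m : Bool → ℕ := fun β => cond β (n / 2) (n - n / 2)
  have hs : ∀ β, 1 ≤ s β := by rintro (_ | _) <;> assumption
  have hfree : (suspension T).Free (host s m) := by
    apply host_free T s m hs
    rintro (_ | _)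
    · exact hba
    · exact hab
  have h1 := card_edgeFinset_le_extremalNumber hfree
  have h2 : Fintype.card (Σ β : Bool, Fin (m β)) = n := by
    rw [Fintype.card_sigma]
    simp [m]
    omega
  rw [h2] at h1
  have h3 := host_edges s m hs
  simp only [Fintype.sum_bool, Bool.not_true, Bool.not_false, s, m, cond_true, cond_false] at h3
  obtain ⟨a, rfl⟩ : ∃ c, a = c + 1 := ⟨a - 1, by omega⟩
  obtain ⟨b, rfl⟩ : ∃ c, b = c + 1 := ⟨b - 1, by omega⟩
  simp only [Nat.add_sub_cancel, show a + 1 + (b + 1) - 2 = a + b by omega] at h3 ⊢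
  set x := n / 2 with hx
  set y := n - n / 2 with hy
  have hxy : x + y = n := by omega
  have hyx : y = x ∨ y = x + 1 := by omega
  have e1 : x < (a + 1) * (x / (a + 1)) + (a + 1) := by
    have := Nat.lt_mul_div_succ x (Nat.succ_pos a)
    rw [Nat.succ_eq_add_one] at this
    nlinarith
  have e2 : y < (b + 1) * (y / (b + 1)) + (b + 1) := by
    have := Nat.lt_mul_div_succ y (Nat.succ_pos b)
    rw [Nat.succ_eq_add_one] at this
    nlinarith
  have e3 : a * x ≤ a * ((a + 1) * (x / (a + 1))) + a * (a + 1) := by nlinarith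
  have e4 : b * y ≤ b * ((b + 1) * (y / (b + 1))) + b * (b + 1) := by nlinarith
  have e5 : n ^ 2 ≤ 4 * (x * y) + 1 := by
    rw [← hxy]
    rcases hyx with h | h <;> rw [h] <;> nlinarith
  have e6 : (a + b) * n ≤ 2 * (a * x) + 2 * (b * y) + a := by
    rw [← hxy]
    rcases hyx with h | h <;> rw [h] <;> nlinarith
  have e7 : x * y + a * ((a + 1) * (x / (a + 1))) + (y * x + b * ((b + 1) * (y / (b + 1)))) ≤
      2 * #(host s m).edgeFinset := h3
  have e8 : 1 + a + 2 * (a * (a + 1)) + 2 * (b * (b + 1)) ≤ 3 * ((a + 1) ^ 2 + (b + 1) ^ 2) := by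
    nlinarith
  have e9 : y * x = x * y := mul_comm _ _
  linarith

/-- upper estimate for `f` -/
theorem f_le (n k : ℕ) (hk : 1 ≤ k) : 4 * f n k ≤ n ^ 2 + (k - 1) * n + (k - 1) ^ 2 := by
  obtain ⟨c, rfl⟩ : ∃ c, k = c + 1 := ⟨k - 1, by omega⟩
  simp only [Nat.add_sub_cancel]
  have : f n (c + 1) ≤ (n ^ 2 + c * n + c ^ 2) / 4 := by
    unfold f
    apply Finset.sup_le
    intro x hx
    rw [mem_range] at hx
    rw [Nat.le_div_iff_mul_le (by norm_num)]
    obtain ⟨y, hy⟩ : ∃ y, n - x = y := ⟨_, rfl⟩
    have hxy : n = x + y := by omega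
    rw [hy]
    simp only [Nat.add_sub_cancel]
    have h1 : (c * x / 2) * 2 ≤ c * x := Nat.div_mul_le_self _ _
    have h2 : 4 * (x * y) + 2 * (c * x) ≤ n ^ 2 + c * n + c ^ 2 := by
      zify
      have : (n : ℤ) = x + y := by exact_mod_cast hxy
      rw [this]
      nlinarith [sq_nonneg ((x : ℤ) - y - c), sq_nonneg (c : ℤ), sq_nonneg ((x:ℤ) - y)]
    nlinarith
  have h := Nat.div_mul_le_self (n ^ 2 + c * n + c ^ 2) 4
  omega

/-! ### Trees given by a parent map -/

section tree

variable {V : Type}

/-- A graph given by a parent map. -/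
def parentGraph (r : V) (p : V → V) (rk : V → ℕ) (h : ∀ v, v ≠ r → rk (p v) < rk v) :
    SimpleGraph V where
  Adj a b := (a ≠ r ∧ b = p a) ∨ (b ≠ r ∧ a = p b)
  symm := ⟨fun a b hab => hab.symm⟩
  loopless := ⟨fun a ha => by
    rcases ha with ⟨h1, h2⟩ | ⟨h1, h2⟩ <;>
    · have := h a h1
      rw [← h2] at this
      exact lt_irrefl _ this⟩

theorem parentGraph_isTree [Fintype V] (r : V) (p : V → V) (rk : V → ℕ)
    (h : ∀ v, v ≠ r → rk (p v) < rk v) : (parentGraph r p rk h).IsTree := by
  classical
  rw [isTree_iff_connected_and_card]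
  constructor
  · have hr : ∀ n, ∀ v, rk v = n → (parentGraph r p rk h).Reachable v r := by
      intro n
      induction n using Nat.strong_induction_on with
      | _ n ih =>
        intro v hv
        by_cases hvr : v = r
        · rw [hvr]
        · have h1 : (parentGraph r p rk h).Adj v (p v) := Or.inl ⟨hvr, rfl⟩
          exact h1.reachable.trans (ih _ (hv ▸ h v hvr) _ rfl)
    have : Nonempty V := ⟨r⟩
    exact ⟨fun a b => (hr _ a rfl).trans (hr _ b rfl).symm⟩
  · let g : {v : V // v ≠ r} → (parentGraph r p rk h).edgeSet := fun v =>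
      ⟨s(v.1, p v.1), (mem_edgeSet _).2 (Or.inl ⟨v.2, rfl⟩)⟩
    have hg : Function.Bijective g := by
      constructor
      · rintro ⟨v, hv⟩ ⟨w, hw⟩ hvw
        have h1 : s(v, p v) = s(w, p w) := congrArg Subtype.val hvw
        rw [Sym2.eq_iff] at h1
        rcases h1 with ⟨h1, _⟩ | ⟨h1, h2⟩
        · exact Subtype.ext h1
        · exfalso
          have a1 := h v hv
          have a2 := h w hw
          rw [h2] at a1
          rw [← h1] at a2
          omega
      · rintro ⟨e, he⟩
        induction e using Sym2.ind with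
        | _ x y =>
          rw [mem_edgeSet] at he
          rcases he with ⟨h1, h2⟩ | ⟨h1, h2⟩
          · refine ⟨⟨x, h1⟩, Subtype.ext ?_⟩
            show s(x, p x) = s(x, y)
            rw [h2]
          · refine ⟨⟨y, h1⟩, Subtype.ext ?_⟩
            show s(y, p y) = s(x, y)
            rw [h2]
            exact Sym2.eq_swap
    rw [← Nat.card_congr (Equiv.ofBijective g hg), Nat.card_eq_fintype_card,
      Nat.card_eq_fintype_card, Fintype.card_subtype_compl, Fintype.card_subtype_eq]
    have : 0 < Fintype.card V := Fintype.card_pos_iff.2 ⟨r⟩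
    omega

theorem conn_of_parent (r : V) (p : V → V) (rk : V → ℕ) (h : ∀ v, v ≠ r → rk (p v) < rk v)
    (S : Finset V) (r₀ : V) (hr₀ : r₀ ∈ S) (hS : ∀ v ∈ S, v ≠ r₀ → v ≠ r ∧ p v ∈ S) :
    ((parentGraph r p rk h).induce (S : Set V)).Connected := by
  set G := (parentGraph r p rk h).induce (S : Set V) with hG
  have hr : ∀ n, ∀ v : (S : Set V), rk v.1 = n → G.Reachable v ⟨r₀, hr₀⟩ := by
    intro n
    induction n using Nat.strong_induction_on with
    | _ n ih =>
      intro v hv
      by_cases hvr : v.1 = r₀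
      · have : v = ⟨r₀, hr₀⟩ := Subtype.ext hvr
        rw [this]
      · obtain ⟨h1, h2⟩ := hS v.1 v.2 hvr
        have h3 : G.Adj v ⟨p v.1, h2⟩ := Or.inl ⟨h1, rfl⟩
        exact h3.reachable.trans (ih _ (hv ▸ h v.1 h1) _ rfl)
  have : Nonempty (S : Set V) := ⟨⟨r₀, hr₀⟩⟩
  exact ⟨fun a b => (hr _ a rfl).trans (hr _ b rfl).symm⟩

end tree

/-- The vertices of the trees: `k + 2` centres `inl (i, none)`, each with `l + 2` further vertices
`inl (i, some j)`, and `e` extra leaves. -/
abbrev TV (k l e : ℕ) : Type := (Fin (k + 2) × Option (Fin (l + 2))) ⊕ Fin e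

/-- the root -/
def rt (k l e : ℕ) : TV k l e := Sum.inl (0, none)

/-- the parent -/
def par {k l e : ℕ} : TV k l e → TV k l e
  | .inl (i, none) => if i = 0 then .inl (0, none) else
      if 2 * i.1 ≤ k + 2 then .inl (0, some 0) else .inl (0, some 1)
  | .inl (i, some _) => .inl (i, none)
  | .inr _ => .inl (0, none)

/-- the depth -/
def rnk {k l e : ℕ} : TV k l e → ℕ
  | .inl (i, none) => if i = 0 then 0 else 2
  | .inl (i, some _) => if i = 0 then 1 else 3
  | .inr _ => 1

theorem rnk_par {k l e : ℕ} (v : TV k l e) (hv : v ≠ rt k l e) : rnk (par v) < rnk v := by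
  rcases v with ⟨i, _ | j⟩ | x
  · by_cases hi : i = 0
    · exact absurd (by rw [hi]; rfl) hv
    · by_cases h2 : 2 * i.1 ≤ k + 2
      · simp [par, rnk, hi, h2]
      · simp [par, rnk, hi, h2]
  · by_cases hi : i = 0
    · simp [par, rnk, hi]
    · simp [par, rnk, hi]
  · simp [par, rnk]

/-- The trees. -/
def tree (k l e : ℕ) : SimpleGraph (TV k l e) := parentGraph (rt k l e) par rnk rnk_par

theorem tree_isTree (k l e : ℕ) : (tree k l e).IsTree := parentGraph_isTree _ _ _ _

/-- the colour: `true` for the centres -/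
def isCentre {k l e : ℕ} : TV k l e → Bool
  | .inl (_, none) => true
  | .inl (_, some _) => false
  | .inr _ => false

theorem isCentre_par {k l e : ℕ} (v : TV k l e) (hv : v ≠ rt k l e) :
    isCentre v ≠ isCentre (par v) := by
  rcases v with ⟨i, _ | j⟩ | x
  · by_cases hi : i = 0
    · exact absurd (by rw [hi]; rfl) hv
    · by_cases h2 : 2 * i.1 ≤ k + 2
      · simp [par, isCentre, hi, h2]
      · simp [par, isCentre, hi, h2]
  · simp [par, isCentre]
  · simp [par, isCentre]

/-- its 2-colouring -/
def col (k l e : ℕ) : (tree k l e).Coloring Bool :=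
  Coloring.mk isCentre (by
    rintro v w (⟨h1, rfl⟩ | ⟨h1, rfl⟩)
    · exact isCentre_par v h1
    · exact (isCentre_par w h1).symm)

theorem card_true (k l e : ℕ) : Nat.card {v // col k l e v = true} = k + 2 := by
  let f : Fin (k + 2) ≃ {v // col k l e v = true} :=
    { toFun := fun i => ⟨.inl (i, none), rfl⟩
      invFun := fun v => match v with
        | ⟨.inl (i, none), _⟩ => i
        | ⟨.inl (_, some _), h⟩ => absurd h Bool.false_ne_true
        | ⟨.inr _, h⟩ => absurd h Bool.false_ne_true
      left_inv := fun i => rfl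
      right_inv := by
        rintro ⟨⟨i, _ | j⟩ | x, h⟩
        · rfl
        · exact absurd h Bool.false_ne_true
        · exact absurd h Bool.false_ne_true }
  rw [← Nat.card_congr f]
  simp

theorem card_false (k l e : ℕ) :
    Nat.card {v // col k l e v = false} = (k + 2) * (l + 2) + e := by
  let f : (Fin (k + 2) × Fin (l + 2)) ⊕ Fin e ≃ {v // col k l e v = false} :=
    { toFun := fun x => match x with
        | .inl (i, j) => ⟨.inl (i, some j), rfl⟩
        | .inr x => ⟨.inr x, rfl⟩
      invFun := fun v => match v with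
        | ⟨.inl (_, none), h⟩ => absurd (show true = false from h).symm Bool.false_ne_true
        | ⟨.inl (i, some j), _⟩ => .inl (i, j)
        | ⟨.inr x, _⟩ => .inr x
      left_inv := by rintro (⟨i, j⟩ | x) <;> rfl
      right_inv := by
        rintro ⟨⟨i, _ | j⟩ | x, h⟩
        · exact absurd (show true = false from h).symm Bool.false_ne_true
        · rfl
        · rfl }
  rw [← Nat.card_congr f]
  simp

/-- the `k + 2` blocks -/
theorem blocks (k l e : ℕ) : ManyConnected (tree k l e) (k + 2) (l + 3) := by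
  classical
  refine ⟨fun i => univ.image fun o => (.inl (i, o) : TV k l e), ?_, ?_⟩
  · intro i j hij
    rw [Finset.disjoint_left]
    intro v hv hv'
    obtain ⟨o, -, rfl⟩ := Finset.mem_image.1 hv
    obtain ⟨o', -, h⟩ := Finset.mem_image.1 hv'
    simp only [Sum.inl.injEq, Prod.mk.injEq] at h
    exact hij h.1.symm
  · intro i
    constructor
    · refine conn_of_parent _ _ _ _ _ (.inl (i, none)) (Finset.mem_image.2 ⟨none, mem_univ _, rfl⟩) ?_
      intro v hv hne
      obtain ⟨o, -, rfl⟩ := Finset.mem_image.1 hv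
      rcases o with _ | j
      · exact absurd rfl hne
      · exact ⟨by simp [rt], Finset.mem_image.2 ⟨none, mem_univ _, rfl⟩⟩
    · rw [card_image_of_injective, card_univ, Fintype.card_option, Fintype.card_fin]
      intro o o' h
      simpa using h

/-- two large connected pieces -/
theorem halves (k e : ℕ) (hk : 1 ≤ k) : ManyConnected (tree k 0 e) 2 (k + 3) := by
  classical
  let S₀ : Finset (TV k 0 e) := univ.filter fun v => v = .inl (0, some 0) ∨
    ∃ i o, v = .inl (i, o) ∧ i ≠ 0 ∧ 2 * i.1 ≤ k + 2
  let S₁ : Finset (TV k 0 e) := univ.filter fun v => v = .inl (0, some 1) ∨ v = .inl (0, none) ∨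
    ∃ i o, v = .inl (i, o) ∧ k + 2 < 2 * i.1
  refine ⟨![S₀, S₁], ?_, ?_⟩
  · have hd : Disjoint S₀ S₁ := by
      rw [Finset.disjoint_left]
      intro v hv hv'
      simp only [S₀, S₁, mem_filter, mem_univ, true_and] at hv hv'
      rcases hv with rfl | ⟨i, o, rfl, h1, h2⟩
      · rcases hv' with h | h | ⟨i, o, h, h3⟩
        · simp at h
        · simp at h
        · simp only [Sum.inl.injEq, Prod.mk.injEq] at h
          rw [← h.1] at h3
          simp at h3
      · rcases hv' with h | h | ⟨i', o', h, h3⟩
        · simp only [Sum.inl.injEq, Prod.mk.injEq] at h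
          exact h1 h.1
        · simp only [Sum.inl.injEq, Prod.mk.injEq] at h
          exact h1 h.1
        · simp only [Sum.inl.injEq, Prod.mk.injEq] at h
          rw [h.1] at h2
          omega
    intro i j hij
    fin_cases i <;> fin_cases j
    · exact absurd rfl hij
    · exact hd
    · exact hd.symm
    · exact absurd rfl hij
  · intro i
    fin_cases i
    · show (((tree k 0 e).induce (S₀ : Set (TV k 0 e))).Connected ∧ k + 3 ≤ S₀.card)
      constructor
      · refine conn_of_parent _ _ _ _ _ (.inl (0, some 0)) (by simp [S₀]) ?_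
        intro v hv hne
        simp only [S₀, mem_filter, mem_univ, true_and] at hv
        rcases hv with rfl | ⟨i, o, rfl, h1, h2⟩
        · exact absurd rfl hne
        · rcases o with _ | j
          · refine ⟨by simp [rt, h1], ?_⟩
            simp [par, h1, h2, S₀]
          · refine ⟨by simp [rt], ?_⟩
            simp [par, h1, h2, S₀]
      · let F : Option (Fin ((k + 2) / 2) × Option (Fin 2)) → TV k 0 e := fun x => match x with
          | none => .inl (0, some 0)
          | some (m, o) => .inl (⟨m.1 + 1, by omega⟩, o)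
        have hF : Function.Injective F := by
          rintro (_ | ⟨m, o⟩) (_ | ⟨m', o'⟩) h
          · rfl
          · simp [F, Fin.ext_iff] at h
          · simp [F, Fin.ext_iff] at h
          · simp only [F, Sum.inl.injEq, Prod.mk.injEq, Fin.mk.injEq, add_left_inj] at h
            rw [Fin.ext h.1, h.2]
        have hsub : univ.image F ⊆ S₀ := by
          intro v hv
          obtain ⟨x, -, rfl⟩ := Finset.mem_image.1 hv
          rcases x with _ | ⟨m, o⟩
          · simp [S₀, F]
          · simp only [S₀, F, mem_filter, mem_univ, true_and]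
            refine Or.inr ⟨_, _, rfl, ?_, ?_⟩
            · simp [Fin.ext_iff]
            · dsimp only
              omega
        have h1 := Finset.card_le_card hsub
        rw [card_image_of_injective _ hF, card_univ] at h1
        simp only [Fintype.card_option, Fintype.card_prod, Fintype.card_fin] at h1
        omega
    · show (((tree k 0 e).induce (S₁ : Set (TV k 0 e))).Connected ∧ k + 3 ≤ S₁.card)
      constructor
      · refine conn_of_parent _ _ _ _ _ (.inl (0, none)) (by simp [S₁]) ?_
        intro v hv hne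
        simp only [S₁, mem_filter, mem_univ, true_and] at hv
        rcases hv with rfl | rfl | ⟨i, o, rfl, h2⟩
        · exact ⟨by simp [rt], by simp [par, S₁]⟩
        · exact absurd rfl hne
        · have hi : i ≠ 0 := by rintro rfl; simp at h2
          rcases o with _ | j
          · refine ⟨by simp [rt, hi], ?_⟩
            simp [par, hi, Nat.not_le.2 h2, S₁]
          · refine ⟨by simp [rt], ?_⟩
            simp [par, hi, h2, S₁]
      · let F : Fin 2 ⊕ (Fin (k + 1 - (k + 2) / 2) × Option (Fin 2)) → TV k 0 e := fun x =>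
          match x with
          | .inl 0 => .inl (0, some 1)
          | .inl 1 => .inl (0, none)
          | .inr (m, o) => .inl (⟨m.1 + ((k + 2) / 2 + 1), by omega⟩, o)
        have hF : Function.Injective F := by
          rintro (x | ⟨m, o⟩) (x' | ⟨m', o'⟩) h
          · fin_cases x <;> fin_cases x' <;> simp_all [F]
          · fin_cases x <;> simp [F, Fin.ext_iff] at h
          · fin_cases x' <;> simp [F, Fin.ext_iff] at h
          · simp only [F, Sum.inl.injEq, Prod.mk.injEq, Fin.mk.injEq, add_left_inj] at h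
            rw [Fin.ext h.1, h.2]
        have hsub : univ.image F ⊆ S₁ := by
          intro v hv
          obtain ⟨x, -, rfl⟩ := Finset.mem_image.1 hv
          rcases x with x | ⟨m, o⟩
          · fin_cases x <;> simp [S₁, F]
          · simp only [S₁, F, mem_filter, mem_univ, true_and]
            refine Or.inr (Or.inr ⟨_, _, rfl, ?_⟩)
            dsimp only
            omega
        have h1 := Finset.card_le_card hsub
        rw [card_image_of_injective _ hF, card_univ] at h1
        simp only [Fintype.card_option, Fintype.card_prod, Fintype.card_fin, Fintype.card_sum] at h1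
        omega

theorem pieces (k e : ℕ) : ManyConnected (tree k 0 e) 2 (k + 3) := by
  rcases Nat.eq_zero_or_pos k with rfl | hk
  · exact blocks 0 0 e
  · exact halves k e hk

/-- **Theorem.** (1) If a graph `T` contains `a` disjoint connected subgraphs of order `≥ b + 1` and
`b` disjoint connected subgraphs of order `≥ a + 1`, then
`ex(n, T̂) ≥ n²/4 + (a + b - 2) n / 4 - O(1)` for every `n`.
(2) For all `k ≥ 2` and `t ≥ 2 k` there is a tree `T` with colour classes of sizes `k` and `t` such
that `ex(n, T̂) ≥ f(n,k) + n/4 - O(1)`, so that the asserted bound fails for every large `n`.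
(3) For all `k ≥ 2` and `t ≥ k²` there is a tree `T` with colour classes of sizes `k` and `t` such
that `ex(n, T̂) ≥ n²/4 + (k-1) n / 2 - O(1)` and `ex(n, T̂) ≥ f(n,k) + (k-1) n / 4 - O(1)`. -/
theorem result :
    (∀ (V : Type) (T : SimpleGraph V) (a b : ℕ), 1 ≤ a → 1 ≤ b →
      ManyConnected T a (b + 1) → ManyConnected T b (a + 1) → ∀ n : ℕ,
        n ^ 2 + (a + b - 2) * n ≤ 4 * extremalNumber n (suspension T) + 3 * (a ^ 2 + b ^ 2)) ∧
    (∀ k t : ℕ, 2 ≤ k → 2 * k ≤ t →
      ∃ (V : Type) (_ : Fintype V) (T : SimpleGraph V) (C : T.Coloring Bool), T.IsTree ∧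
        Nat.card {v // C v = true} = k ∧ Nat.card {v // C v = false} = t ∧
        (∀ n : ℕ, 4 * f n k + n ≤ 4 * extremalNumber n (suspension T) + 7 * k ^ 2) ∧
        ∀ n : ℕ, 7 * k ^ 2 < n → f n k < extremalNumber n (suspension T)) ∧
    (∀ k t : ℕ, 2 ≤ k → k ^ 2 ≤ t →
      ∃ (V : Type) (_ : Fintype V) (T : SimpleGraph V) (C : T.Coloring Bool), T.IsTree ∧
        Nat.card {v // C v = true} = k ∧ Nat.card {v // C v = false} = t ∧
        (∀ n : ℕ, n ^ 2 + (2 * k - 2) * n ≤
          4 * extremalNumber n (suspension T) + 6 * k ^ 2) ∧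
        ∀ n : ℕ, 4 * f n k + (k - 1) * n ≤
          4 * extremalNumber n (suspension T) + 7 * k ^ 2) := by
  refine ⟨fun V T a b ha hb h1 h2 n => lower T a b ha hb h1 h2 n, ?_, ?_⟩
  · intro k t hk ht
    obtain ⟨k, rfl⟩ : ∃ c, k = c + 2 := ⟨k - 2, by omega⟩
    obtain ⟨e, he⟩ : ∃ e, t = (k + 2) * (0 + 2) + e := ⟨t - (k + 2) * (0 + 2), by omega⟩
    have main : ∀ n : ℕ, 4 * f n (k + 2) + n ≤
        4 * extremalNumber n (suspension (tree k 0 e)) + 7 * (k + 2) ^ 2 := by
      intro n
      have h1 := lower (tree k 0 e) (k + 2) 2 (by omega) (by omega) (blocks k 0 e) (pieces k e) n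
      have h2 := f_le n (k + 2) (by omega)
      simp only [show k + 2 + 2 - 2 = k + 2 by omega, show k + 2 - 1 = k + 1 by omega] at h1 h2
      nlinarith
    refine ⟨TV k 0 e, inferInstance, tree k 0 e, col k 0 e, tree_isTree k 0 e, card_true k 0 e,
      by rw [card_false, he], main, fun n hn => ?_⟩
    have := main n
    omega
  · intro k t hk ht
    obtain ⟨k, rfl⟩ : ∃ c, k = c + 2 := ⟨k - 2, by omega⟩
    obtain ⟨e, he⟩ : ∃ e, t = (k + 2) * (k + 2) + e :=
      ⟨t - (k + 2) * (k + 2), by rw [pow_two] at ht; omega⟩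
    have h0 : ∀ n : ℕ, n ^ 2 + (2 * (k + 2) - 2) * n ≤
        4 * extremalNumber n (suspension (tree k k e)) + 6 * (k + 2) ^ 2 := by
      intro n
      have h1 := lower (tree k k e) (k + 2) (k + 2) (by omega) (by omega) (blocks k k e)
        (blocks k k e) n
      simp only [show k + 2 + (k + 2) - 2 = 2 * (k + 2) - 2 by omega] at h1
      nlinarith
    refine ⟨TV k k e, inferInstance, tree k k e, col k k e, tree_isTree k k e, card_true k k e,
      by rw [card_false, he], h0, fun n => ?_⟩
    have h1 := h0 n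
    have h2 := f_le n (k + 2) (by omega)
    simp only [show 2 * (k + 2) - 2 = 2 * (k + 1) by omega, show k + 2 - 1 = k + 1 by omega]
      at h1 h2 ⊢
    nlinarith

end Pool.Agent.Results.MP_6784b8_co.LinearGap
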